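import Mathlib

/-!
MP_a6405b_nt (helper50): arithmetic of the points `q (ξ₁, ξ₂)` close to `0` on the torus.
-/

open Finset

set_option autoImplicit false

namespace Pool.Agent.H.MP_a6405b_nt

/-- Distance to the nearest integer. -/
noncomputable def dn (x : ℝ) : ℝ := |x - round x|

theorem dn_nonneg (x : ℝ) : 0 ≤ dn x := abs_nonneg _

theorem dn_le (x : ℝ) (z : ℤ) : dn x ≤ |x - z| := round_le x z

theorem dn_le_half (x : ℝ) : dn x ≤ 1 / 2 := abs_sub_round x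

theorem round_eq_of_lt {x : ℝ} {z : ℤ} (h : |x - z| < 1 / 2) : round x = z := by
  rw [abs_lt] at h
  rw [round_eq, Int.floor_eq_iff]
  constructor <;> linarith [h.1, h.2]

theorem cross {ξ ρ : ℝ} {q q' m m' : ℕ} (hm : m ≤ m') (hqm : m' * q = m * q')
    (h1 : dn (q * ξ) ≤ ρ) (h1' : dn (q' * ξ) ≤ ρ) (hlt : 2 * ρ * m' < 1) :
    (m' : ℤ) * round ((q : ℝ) * ξ) = m * round ((q' : ℝ) * ξ) := by
  have h0 : 0 ≤ ρ := (dn_nonneg _).trans h1
  have hmr : (m : ℝ) ≤ m' := by exact_mod_cast hm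
  have hm0 : (0 : ℝ) ≤ m := Nat.cast_nonneg _
  have hqr : (m' : ℝ) * q = m * q' := by exact_mod_cast hqm
  have h2 : |((m * round ((q' : ℝ) * ξ) - m' * round ((q : ℝ) * ξ) : ℤ) : ℝ)| < 1 := by
    have e : ((m * round ((q' : ℝ) * ξ) - m' * round ((q : ℝ) * ξ) : ℤ) : ℝ) =
        m' * (q * ξ - round ((q : ℝ) * ξ)) - m * (q' * ξ - round ((q' : ℝ) * ξ)) := by
      push_cast
      linear_combination (-ξ) * hqr
    rw [e]
    calc |(m' : ℝ) * (q * ξ - round ((q : ℝ) * ξ)) - m * (q' * ξ - round ((q' : ℝ) * ξ))|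
        ≤ |(m' : ℝ) * (q * ξ - round ((q : ℝ) * ξ))| + |(m : ℝ) * (q' * ξ - round ((q' : ℝ) * ξ))| :=
          abs_sub _ _
      _ = m' * dn (q * ξ) + m * dn (q' * ξ) := by
          rw [abs_mul, abs_mul, abs_of_nonneg hm0, abs_of_nonneg (hm0.trans hmr)]
          rfl
      _ ≤ m' * ρ + m' * ρ := by
          apply add_le_add
          · exact mul_le_mul_of_nonneg_left h1 (hm0.trans hmr)
          · exact mul_le_mul hmr h1' (dn_nonneg _) (hm0.trans hmr)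
      _ < 1 := by linarith
  have h3 : |(m * round ((q' : ℝ) * ξ) - m' * round ((q : ℝ) * ξ) : ℤ)| < 1 := by
    rw [← Int.cast_abs] at h2
    exact_mod_cast h2
  rw [Int.abs_lt_one_iff] at h3
  omega

/-- Greatest common divisor of `q` and the nearest integers to `q ξ₁`, `q ξ₂`. -/
noncomputable def gc (ξ₁ ξ₂ : ℝ) (q : ℕ) : ℕ :=
  Nat.gcd q (Nat.gcd (round ((q : ℝ) * ξ₁)).natAbs (round ((q : ℝ) * ξ₂)).natAbs)

theorem prim_pair {ξ₁ ξ₂ ρ : ℝ} {q q' : ℕ} (hq : 1 ≤ q) (hlt : q < q')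
    (hprim : gc ξ₁ ξ₂ q' = 1)
    (h1 : dn (q * ξ₁) ≤ ρ) (h2 : dn (q * ξ₂) ≤ ρ) (h1' : dn (q' * ξ₁) ≤ ρ)
    (h2' : dn (q' * ξ₂) ≤ ρ) :
    1 ≤ 2 * ρ * ((q' / Nat.gcd q q' : ℕ) : ℝ) := by
  set d := Nat.gcd q q' with hd
  set m := q / d with hm
  set m' := q' / d with hm'
  have hd1 : 0 < d := Nat.gcd_pos_of_pos_left _ (by omega)
  have hqm : q = m * d := (Nat.div_mul_cancel (Nat.gcd_dvd_left q q')).symm
  have hqm' : q' = m' * d := (Nat.div_mul_cancel (Nat.gcd_dvd_right q q')).symm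
  have hcop : Nat.Coprime m m' := Nat.coprime_div_gcd_div_gcd hd1
  by_contra hcon
  rw [not_le] at hcon
  have hmm : m ≤ m' := Nat.div_le_div_right hlt.le
  have hrel : m' * q = m * q' := by
    rw [hqm, hqm']; ring
  have c1 := cross hmm hrel h1 h1' hcon
  have c2 := cross hmm hrel h2 h2' hcon
  have hdiv : ∀ a b : ℤ, (m' : ℤ) * a = m * b → m' ∣ b.natAbs := by
    intro a b hab
    have h3 : (m' : ℤ) ∣ m * b := Dvd.intro _ hab
    have h4 : IsCoprime (m' : ℤ) m := by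
      rw [Nat.isCoprime_iff_coprime]
      exact hcop.symm
    exact Int.natCast_dvd.1 (h4.dvd_of_dvd_mul_left h3)
  have h5 : m' ∣ gc ξ₁ ξ₂ q' :=
    Nat.dvd_gcd ⟨d, hqm'⟩ (Nat.dvd_gcd (hdiv _ _ c1) (hdiv _ _ c2))
  rw [hprim, Nat.dvd_one] at h5
  rw [h5, one_mul] at hqm'
  have : d ≤ q := Nat.le_of_dvd (by omega) (Nat.gcd_dvd_left q q')
  omega

/-- Pigeonhole: at least `2^(n-i-j)` of the `q ≤ 2^n` have `q (ξ₁, ξ₂)` in the box. -/
theorem box_count (ξ₁ ξ₂ : ℝ) (n i j : ℕ) (hij : i + j ≤ n) :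
    2 ^ (n - (i + j)) ≤ ((Finset.Icc 1 (2 ^ n)).filter
      (fun q : ℕ => dn (q * ξ₁) ≤ (1 / 2 : ℝ) ^ i ∧ dn (q * ξ₂) ≤ (1 / 2 : ℝ) ^ j)).card := by
  classical
  set f : ℕ → ℕ × ℕ := fun q =>
    (⌊2 ^ i * Int.fract ((q : ℝ) * ξ₁)⌋₊, ⌊2 ^ j * Int.fract ((q : ℝ) * ξ₂)⌋₊) with hf
  have hfl : ∀ (x : ℝ) (l : ℕ), ⌊2 ^ l * Int.fract x⌋₊ < 2 ^ l := by
    intro x l
    rw [Nat.floor_lt (mul_nonneg (by positivity) (Int.fract_nonneg _))]
    push_cast
    have := Int.fract_lt_one x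
    have h2 : (0 : ℝ) < 2 ^ l := by positivity
    nlinarith
  have hmaps : ∀ q ∈ Finset.range (2 ^ n + 1), f q ∈ Finset.range (2 ^ i) ×ˢ Finset.range (2 ^ j) := by
    intro q _
    rw [Finset.mem_product, Finset.mem_range, Finset.mem_range]
    exact ⟨hfl _ _, hfl _ _⟩
  have hcard : (Finset.range (2 ^ i) ×ˢ Finset.range (2 ^ j)).card * 2 ^ (n - (i + j)) <
      (Finset.range (2 ^ n + 1)).card := by
    rw [Finset.card_product, Finset.card_range, Finset.card_range, Finset.card_range,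
      ← pow_add, ← pow_add, Nat.add_sub_cancel' hij]
    omega
  obtain ⟨y, -, hy⟩ := Finset.exists_lt_card_fiber_of_mul_lt_card_of_maps_to hmaps hcard
  set T := (Finset.range (2 ^ n + 1)).filter (fun q => f q = y) with hT
  have hTne : T.Nonempty := by
    rw [← Finset.card_pos]
    exact lt_of_le_of_lt (Nat.zero_le _) hy
  set q0 := T.min' hTne with hq0
  have hq0T : q0 ∈ T := Finset.min'_mem _ _
  have hclose : ∀ (ξ : ℝ) (l : ℕ) (q : ℕ), q0 ≤ q →
      ⌊2 ^ l * Int.fract ((q : ℝ) * ξ)⌋₊ = ⌊2 ^ l * Int.fract ((q0 : ℝ) * ξ)⌋₊ →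
      dn (((q - q0 : ℕ) : ℝ) * ξ) ≤ (1 / 2 : ℝ) ^ l := by
    intro ξ l q hle he
    have h2 : (0 : ℝ) < 2 ^ l := by positivity
    have ha := Nat.floor_le (a := 2 ^ l * Int.fract ((q : ℝ) * ξ))
      (mul_nonneg h2.le (Int.fract_nonneg _))
    have hb := Nat.lt_floor_add_one (2 ^ l * Int.fract ((q : ℝ) * ξ))
    have ha' := Nat.floor_le (a := 2 ^ l * Int.fract ((q0 : ℝ) * ξ))
      (mul_nonneg h2.le (Int.fract_nonneg _))
    have hb' := Nat.lt_floor_add_one (2 ^ l * Int.fract ((q0 : ℝ) * ξ))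
    rw [he] at ha hb
    refine (dn_le _ (⌊(q : ℝ) * ξ⌋ - ⌊(q0 : ℝ) * ξ⌋)).trans ?_
    have e : (((q - q0 : ℕ) : ℝ) * ξ) - ((⌊(q : ℝ) * ξ⌋ - ⌊(q0 : ℝ) * ξ⌋ : ℤ) : ℝ) =
        Int.fract ((q : ℝ) * ξ) - Int.fract ((q0 : ℝ) * ξ) := by
      rw [Nat.cast_sub hle]
      push_cast
      simp only [Int.fract]
      ring
    rw [e]
    have h3 : |2 ^ l * (Int.fract ((q : ℝ) * ξ) - Int.fract ((q0 : ℝ) * ξ))| ≤ 1 := by
      rw [abs_le]
      constructor <;> linarith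
    rw [abs_mul, abs_of_pos h2] at h3
    rw [one_div, inv_pow, ← one_div, le_div_iff₀ h2]
    linarith
  have hle : (T.erase q0).card ≤ ((Finset.Icc 1 (2 ^ n)).filter
      (fun q : ℕ => dn (q * ξ₁) ≤ (1 / 2 : ℝ) ^ i ∧ dn (q * ξ₂) ≤ (1 / 2 : ℝ) ^ j)).card := by
    apply Finset.card_le_card_of_injOn (fun q => q - q0)
    · intro q hq
      have hq' := Finset.mem_coe.1 hq
      rw [Finset.mem_erase] at hq'
      have hle : q0 ≤ q := Finset.min'_le _ _ hq'.2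
      have hqT := hq'.2
      rw [hT, Finset.mem_filter, Finset.mem_range] at hqT
      have hq0T' := hq0T
      rw [hT, Finset.mem_filter, Finset.mem_range] at hq0T'
      have hfe : f q = f q0 := hqT.2.trans hq0T'.2.symm
      simp only [hf, Prod.mk.injEq] at hfe
      rw [Finset.mem_coe, Finset.mem_filter, Finset.mem_Icc]
      refine ⟨⟨?_, ?_⟩, hclose ξ₁ i q hle hfe.1, hclose ξ₂ j q hle hfe.2⟩
      · have := hq'.1
        show 1 ≤ q - q0
        omega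
      · show q - q0 ≤ 2 ^ n
        omega
    · intro a ha b hb hab
      have ha' := Finset.mem_coe.1 ha
      have hb' := Finset.mem_coe.1 hb
      rw [Finset.mem_erase] at ha' hb'
      have h1 : q0 ≤ a := Finset.min'_le _ _ ha'.2
      have h2 : q0 ≤ b := Finset.min'_le _ _ hb'.2
      simp only at hab
      omega
  rw [Finset.card_erase_of_mem hq0T] at hle
  omega

theorem sum_pow_le (s : Finset ℕ) (d : ℝ) (hd : 0 < d) :
    ∑ i ∈ s.filter (fun i => d ≤ (1 / 2 : ℝ) ^ i), (2 : ℝ) ^ i ≤ 2 / d := by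
  classical
  set T := s.filter (fun i => d ≤ (1 / 2 : ℝ) ^ i) with hT
  rcases T.eq_empty_or_nonempty with h | h
  · rw [h]
    simp
    positivity
  · have hM : T.max' h ∈ T := Finset.max'_mem _ _
    have hMd : d ≤ (1 / 2 : ℝ) ^ (T.max' h) := (Finset.mem_filter.1 hM).2
    have hsub : T ⊆ Finset.range (T.max' h + 1) := by
      intro i hi
      rw [Finset.mem_range]
      have := Finset.le_max' T i hi
      omega
    have h1 : ∑ i ∈ T, (2 : ℝ) ^ i ≤ ∑ i ∈ Finset.range (T.max' h + 1), (2 : ℝ) ^ i :=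
      Finset.sum_le_sum_of_subset_of_nonneg hsub (fun i _ _ => by positivity)
    have h2 : ∑ i ∈ Finset.range (T.max' h + 1), (2 : ℝ) ^ i = 2 ^ (T.max' h + 1) - 1 := by
      rw [geom_sum_eq (by norm_num)]
      norm_num
    have h3 : (2 : ℝ) ^ (T.max' h) ≤ 1 / d := by
      rw [le_div_iff₀ hd]
      have h4 : (2 : ℝ) ^ (T.max' h) * (1 / 2) ^ (T.max' h) = 1 := by
        rw [← mul_pow]; norm_num
      rw [← h4]
      exact mul_le_mul_of_nonneg_left hMd (by positivity)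
    calc ∑ i ∈ T, (2 : ℝ) ^ i ≤ 2 ^ (T.max' h + 1) - 1 := h1.trans h2.le
      _ ≤ 2 * 2 ^ (T.max' h) := by rw [pow_succ]; linarith
      _ ≤ 2 * (1 / d) := by linarith
      _ = 2 / d := by ring

/-- The index set of dyadic boxes. -/
def Ix (n k : ℕ) : Finset (ℕ × ℕ) :=
  (Finset.range (n + 1) ×ˢ Finset.range (n + 1)).filter
    (fun p => 4 * k ≤ p.1 ∧ 4 * k ≤ p.2 ∧ n ≤ p.1 + p.2 + k ∧ p.1 + p.2 ≤ n)

theorem card_Ix {n k : ℕ} (h : 32 * k ≤ n) : k * k ≤ (Ix n k).card := by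
  classical
  have h1 : (Finset.range k ×ˢ Finset.range k).card ≤ (Ix n k).card := by
    apply Finset.card_le_card_of_injOn (fun p : ℕ × ℕ => (4 * k + p.1, n - p.2 - 4 * k - p.1))
    · intro p hp
      have hp' := Finset.mem_coe.1 hp
      rw [Finset.mem_product, Finset.mem_range, Finset.mem_range] at hp'
      rw [Finset.mem_coe, Ix, Finset.mem_filter, Finset.mem_product, Finset.mem_range,
        Finset.mem_range]
      obtain ⟨h2, h3⟩ := hp'
      refine ⟨⟨?_, ?_⟩, ?_, ?_, ?_, ?_⟩ <;> simp only <;> omega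
    · intro p hp p' hp' he
      have h2 := Finset.mem_coe.1 hp
      have h3 := Finset.mem_coe.1 hp'
      rw [Finset.mem_product, Finset.mem_range, Finset.mem_range] at h2 h3
      simp only [Prod.mk.injEq] at he
      ext <;> omega
  rwa [Finset.card_product, Finset.card_range] at h1

end Pool.Agent.H.MP_a6405b_nt
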