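import Mathlib

/-!
MP_a6405b_nt (helper50): events `‖q x - g‖ ≤ a` on the circle, measure of a pair of events,
and the second moment inequality for a finite family of events.
-/

open MeasureTheory Set
open scoped ENNReal

set_option autoImplicit false

namespace Pool.Agent.H.MP_a6405b_nt

/-- The event `‖q x - g‖ ≤ a`. -/
def Ev (g : UnitAddCircle) (q : ℕ) (a : ℝ) : Set UnitAddCircle := {x | ‖q • x - g‖ ≤ a}

theorem Ev_eq (g : UnitAddCircle) (q : ℕ) (a : ℝ) :
    Ev g q a = (fun x : UnitAddCircle => q • x) ⁻¹' Metric.closedBall g a := by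
  ext x
  simp [Ev, dist_eq_norm]

theorem measurableSet_Ev (g : UnitAddCircle) (q : ℕ) (a : ℝ) : MeasurableSet (Ev g q a) := by
  rw [Ev_eq]
  exact (measurable_const_smul q) Metric.isClosed_closedBall.measurableSet

theorem volume_Ev (g : UnitAddCircle) {q : ℕ} (hq : 1 ≤ q) {a : ℝ} (ha : a ≤ 1 / 2) :
    volume (Ev g q a) = ENNReal.ofReal (2 * a) := by
  have h1 : MeasurePreserving (fun x : UnitAddCircle => (q : ℤ) • x) volume volume :=
    MeasureTheory.Measure.measurePreserving_zsmul volume (by exact_mod_cast (by omega : q ≠ 0))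
  have h2 : (fun x : UnitAddCircle => (q : ℤ) • x) = fun x => q • x := by
    ext x; simp
  rw [h2] at h1
  rw [Ev_eq, h1.measure_preimage Metric.isClosed_closedBall.measurableSet.nullMeasurableSet,
    AddCircle.volume_closedBall]
  congr 1
  exact min_eq_right (by linarith)

/-- Counting: among the `m'` points `z + m k / m'` at most `2 a m' + 1` are within `a` of `0`. -/
theorem count_le (z : UnitAddCircle) {m m' : ℕ} (hm' : 1 ≤ m') (hc : Nat.Coprime m m') (a : ℝ)
    (ha : 0 ≤ a) :
    (((Finset.range m').filter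
      (fun k : ℕ => ‖z + (((m * k : ℝ) / m' : ℝ) : UnitAddCircle)‖ ≤ a)).card : ℝ) ≤ 2 * a * m' + 1 := by
  classical
  obtain ⟨z0, rfl⟩ := QuotientAddGroup.mk_surjective z
  have hm0 : (0 : ℝ) < m' := by exact_mod_cast hm'
  set T := (Finset.range m').filter
      (fun k : ℕ => ‖((z0 : ℝ) : UnitAddCircle) + (((m * k : ℝ) / m' : ℝ) : UnitAddCircle)‖ ≤ a) with hT
  set f : ℕ → ℤ := fun k => (m : ℤ) * k - m' * round (z0 + (m * k : ℝ) / m') with hf
  have hmap : ∀ k ∈ T, f k ∈ Finset.Icc ⌈-(m' * z0) - a * m'⌉ ⌊-(m' * z0) + a * m'⌋ := by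
    intro k hk
    rw [hT, Finset.mem_filter] at hk
    have h1 : |z0 + (m * k : ℝ) / m' - round (z0 + (m * k : ℝ) / m')| ≤ a := by
      have := hk.2
      rw [← AddCircle.coe_add] at this
      rwa [UnitAddCircle.norm_eq] at this
    rw [Finset.mem_Icc, Int.ceil_le, Int.le_floor]
    have h2 : ((f k : ℤ) : ℝ) = m' * (z0 + (m * k : ℝ) / m' - round (z0 + (m * k : ℝ) / m')) - m' * z0 := by
      simp only [hf]
      push_cast
      field_simp
      ring
    rw [h2]
    rw [abs_le] at h1
    constructor <;> nlinarith [h1.1, h1.2]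
  have hinj : ∀ k ∈ T, ∀ l ∈ T, f k = f l → k = l := by
    intro k hk l hl hkl
    rw [hT, Finset.mem_filter, Finset.mem_range] at hk hl
    have h1 : (m : ℤ) * k ≡ m * l [ZMOD m'] := by
      have h3 : (m : ℤ) * k - m * l = m' * (round (z0 + (m * k : ℝ) / m') - round (z0 + (m * l : ℝ) / m')) := by
        simp only [hf] at hkl
        linarith
      exact (Int.modEq_iff_dvd.2 (Dvd.intro _ h3.symm)).symm
    have h2 : m * k ≡ m * l [MOD m'] := by
      rw [← Int.natCast_modEq_iff]
      exact_mod_cast h1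
    have h4 : k ≡ l [MOD m'] := Nat.ModEq.cancel_left_of_coprime (by rwa [Nat.coprime_comm] at hc) h2
    exact Nat.ModEq.eq_of_lt_of_lt h4 hk.1 hl.1
  have hcard : T.card ≤ (Finset.Icc ⌈-(m' * z0) - a * m'⌉ ⌊-(m' * z0) + a * m'⌋).card :=
    Finset.card_le_card_of_injOn f hmap (fun k hk l hl h => hinj k hk l hl h)
  rw [Int.card_Icc] at hcard
  have h5 : ((T.card : ℤ) : ℝ) ≤ 2 * a * m' + 1 := by
    have h6 : (0 : ℝ) ≤ 2 * a * m' + 1 := by positivity
    have h7 : (T.card : ℤ) ≤ max (⌊-(m' * z0) + a * m'⌋ + 1 - ⌈-(m' * z0) - a * m'⌉) 0 := by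
      have : (T.card : ℤ) ≤ ((⌊-(m' * z0) + a * m'⌋ + 1 - ⌈-(m' * z0) - a * m'⌉).toNat : ℤ) := by
        exact_mod_cast hcard
      simpa [Int.toNat_of_nonneg, Int.natCast_toNat_eq_self, Int.ofNat_toNat] using this
    have h8 : ((T.card : ℤ) : ℝ) ≤ ((max (⌊-(m' * z0) + a * m'⌋ + 1 - ⌈-(m' * z0) - a * m'⌉) 0 : ℤ) : ℝ) := by
      exact_mod_cast h7
    refine h8.trans ?_
    push_cast
    apply max_le _ h6
    have h9 := Int.floor_le (-(m' * z0) + a * m')
    have h10 := Int.le_ceil (-(m' * z0) - a * m')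
    linarith
  exact_mod_cast h5

/-- Measure of the intersection of two events. -/
theorem volume_pair (g : UnitAddCircle) {q q' : ℕ} (hq : 1 ≤ q) (hq' : 1 ≤ q') {a a' : ℝ}
    (ha : 0 ≤ a) (ha' : a' ≤ 1 / 2) :
    volume (Ev g q a ∩ Ev g q' a') ≤
      ENNReal.ofReal (2 * a' * (2 * a + 1 / ((q' / Nat.gcd q q' : ℕ) : ℝ))) := by
  classical
  set d := Nat.gcd q q' with hd
  set m := q / d with hm
  set m' := q' / d with hm'
  have hd1 : 0 < d := Nat.gcd_pos_of_pos_left _ (by omega)
  have hqm : q = m * d := (Nat.div_mul_cancel (Nat.gcd_dvd_left q q')).symm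
  have hqm' : q' = m' * d := (Nat.div_mul_cancel (Nat.gcd_dvd_right q q')).symm
  have hm1 : 1 ≤ m' := by
    rcases Nat.eq_zero_or_pos m' with h | h
    · rw [h] at hqm'; omega
    · exact h
  have hcop : Nat.Coprime m m' := Nat.coprime_div_gcd_div_gcd hd1
  set t : ℕ → UnitAddCircle := fun k => (((k : ℝ) / q' : ℝ) : UnitAddCircle) with ht
  have ht' : ∀ k, q' • t k = 0 := by
    intro k
    have h1 : q' • t k = (((q' : ℝ) * ((k : ℝ) / q') : ℝ) : UnitAddCircle) := by
      simp only [ht]
      rw [← AddCircle.coe_nsmul, nsmul_eq_mul]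
    rw [h1]
    have h2 : (q' : ℝ) * ((k : ℝ) / q') = ((k : ℤ) : ℝ) := by
      have : (q' : ℝ) ≠ 0 := by exact_mod_cast (by omega : q' ≠ 0)
      push_cast
      field_simp
    rw [h2, AddCircle.coe_eq_zero_iff]
    exact ⟨k, by simp⟩
  have htq : ∀ k : ℕ, q • t k = (((m * k : ℝ) / m' : ℝ) : UnitAddCircle) := by
    intro k
    have h1 : q • t k = (((q : ℝ) * ((k : ℝ) / q') : ℝ) : UnitAddCircle) := by
      simp only [ht]
      rw [← AddCircle.coe_nsmul, nsmul_eq_mul]
    rw [h1]
    congr 1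
    have h3 : (d : ℝ) ≠ 0 := by exact_mod_cast hd1.ne'
    have h4 : (m' : ℝ) ≠ 0 := by exact_mod_cast (by omega : m' ≠ 0)
    rw [hqm, hqm']
    push_cast
    field_simp
  -- the sets
  set S : ℕ → Set UnitAddCircle := fun k => {x | ‖q • x - g + q • t k‖ ≤ a} ∩ Ev g q' a' with hS
  have hSm : ∀ k, MeasurableSet (S k) := by
    intro k
    refine MeasurableSet.inter ?_ (measurableSet_Ev _ _ _)
    have : {x : UnitAddCircle | ‖q • x - g + q • t k‖ ≤ a} =
        (fun x : UnitAddCircle => q • x) ⁻¹' Metric.closedBall (g - q • t k) a := by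
      ext x
      simp only [mem_ofPred_eq, mem_preimage, Metric.mem_closedBall, dist_eq_norm]
      rw [show q • x - (g - q • t k) = q • x - g + q • t k by abel]
    rw [this]
    exact (measurable_const_smul q) Metric.isClosed_closedBall.measurableSet
  have hvol : ∀ k, volume (S k) = volume (Ev g q a ∩ Ev g q' a') := by
    intro k
    have h1 : S k = (fun x => x + t k) ⁻¹' (Ev g q a ∩ Ev g q' a') := by
      ext x
      simp only [hS, Ev, mem_inter_iff, mem_ofPred_eq, mem_preimage, smul_add, ht', add_zero]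
      rw [show q • x - g + q • t k = q • x + q • t k - g by abel]
    rw [h1]
    exact measure_preimage_add_right volume (t k) _
  -- counting
  have hcount : ∀ x : UnitAddCircle,
      (((Finset.range m').filter (fun k => x ∈ S k)).card : ℝ) ≤ 2 * a * m' + 1 := by
    intro x
    refine le_trans ?_ (count_le (q • x - g) hm1 hcop a ha)
    have : (Finset.range m').filter (fun k => x ∈ S k) ⊆ (Finset.range m').filter
      (fun k : ℕ => ‖(q • x - g) + (((m * k : ℝ) / m' : ℝ) : UnitAddCircle)‖ ≤ a) := by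
      intro k hk
      rw [Finset.mem_filter] at hk ⊢
      refine ⟨hk.1, ?_⟩
      have := hk.2.1
      simp only [mem_ofPred_eq] at this
      rwa [htq k] at this
    exact_mod_cast Finset.card_le_card this
  have hsum : (m' : ℝ≥0∞) * volume (Ev g q a ∩ Ev g q' a') ≤
      ENNReal.ofReal (2 * a * m' + 1) * volume (Ev g q' a') := by
    have h1 : (m' : ℝ≥0∞) * volume (Ev g q a ∩ Ev g q' a') = ∑ k ∈ Finset.range m', volume (S k) := by
      rw [Finset.sum_congr rfl (fun k _ => hvol k)]
      simp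
    rw [h1]
    have h2 : ∑ k ∈ Finset.range m', volume (S k) =
        ∫⁻ x, ∑ k ∈ Finset.range m', (S k).indicator 1 x := by
      rw [lintegral_finsetSum]
      · refine Finset.sum_congr rfl fun k _ => ?_
        rw [lintegral_indicator_one (hSm k)]
      · intro k _
        exact measurable_one.indicator (hSm k)
    rw [h2, ← lintegral_indicator_const (measurableSet_Ev g q' a')]
    refine lintegral_mono fun x => ?_
    by_cases hx : x ∈ Ev g q' a'
    · rw [indicator_of_mem hx]
      have h3 : ∑ k ∈ Finset.range m', (S k).indicator (1 : UnitAddCircle → ℝ≥0∞) x =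
          (((Finset.range m').filter (fun k => x ∈ S k)).card : ℝ≥0∞) := by
        simp only [indicator_apply, Pi.one_apply]
        rw [Finset.sum_ite, Finset.sum_const_zero, add_zero, Finset.sum_const]
        simp
      rw [h3, ← ENNReal.ofReal_natCast]
      exact ENNReal.ofReal_le_ofReal (hcount x)
    · rw [indicator_of_notMem hx]
      refine le_of_eq (Finset.sum_eq_zero fun k _ => ?_)
      rw [indicator_of_notMem]
      exact fun h => hx h.2
  rw [volume_Ev g hq' ha', ← ENNReal.ofReal_mul (by positivity)] at hsum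
  have hm0 : (0 : ℝ) < m' := by exact_mod_cast hm1
  have h3 : volume (Ev g q a ∩ Ev g q' a') ≤ ENNReal.ofReal ((2 * a * m' + 1) * (2 * a')) / m' := by
    rw [ENNReal.le_div_iff_mul_le (Or.inl (by exact_mod_cast (by omega : m' ≠ 0)))
      (Or.inl (ENNReal.natCast_ne_top m')), mul_comm]
    exact hsum
  refine h3.trans (le_of_eq ?_)
  rw [← ENNReal.ofReal_natCast, ← ENNReal.ofReal_div_of_pos hm0]
  congr 1
  field_simp

/-- Second moment inequality for events whose pairs are nearly independent. -/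
theorem second_moment {Ω ι : Type*} [MeasurableSpace Ω] (μ : Measure Ω) [IsProbabilityMeasure μ]
    (F : Finset ι) (E : ι → Set Ω) (hE : ∀ i ∈ F, MeasurableSet (E i)) (κ : ℝ) (hκ : 0 ≤ κ)
    (hpair : ∀ i ∈ F, ∀ j ∈ F, i ≠ j →
      μ.real (E i ∩ E j) ≤ (1 + κ) * (μ.real (E i) * μ.real (E j)))
    (hS : 0 < ∑ i ∈ F, μ.real (E i)) :
    μ.real (⋂ i ∈ F, (E i)ᶜ) ≤ 1 / (∑ i ∈ F, μ.real (E i)) + κ := by
  classical
  set s := ∑ i ∈ F, μ.real (E i) with hs
  set N : Ω → ℝ := fun x => ∑ i ∈ F, (E i).indicator (fun _ => (1 : ℝ)) x with hN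
  have hint : ∀ i ∈ F, Integrable ((E i).indicator (fun _ => (1 : ℝ))) μ := fun i hi =>
    (integrable_const (1 : ℝ)).indicator (hE i hi)
  have hNi : Integrable N μ := by
    have := integrable_finsetSum F hint
    exact this
  have hN1 : ∫ x, N x ∂μ = s := by
    rw [hN, integral_finsetSum F hint, hs]
    refine Finset.sum_congr rfl fun i hi => ?_
    rw [integral_indicator_const _ (hE i hi)]
    simp
  have hsq : ∀ x, N x ^ 2 = ∑ i ∈ F, ∑ j ∈ F, (E i ∩ E j).indicator (fun _ => (1 : ℝ)) x := by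
    intro x
    rw [sq, hN, Finset.sum_mul_sum]
    refine Finset.sum_congr rfl fun i _ => Finset.sum_congr rfl fun j _ => ?_
    by_cases h1 : x ∈ E i <;> by_cases h2 : x ∈ E j <;> simp [h1, h2]
  have hint2 : ∀ i ∈ F, ∀ j ∈ F, Integrable ((E i ∩ E j).indicator (fun _ => (1 : ℝ))) μ :=
    fun i hi j hj => (integrable_const (1 : ℝ)).indicator ((hE i hi).inter (hE j hj))
  have hN2i : Integrable (fun x => N x ^ 2) μ := by
    simp_rw [hsq]
    exact integrable_finsetSum F fun i hi => integrable_finsetSum F fun j hj => hint2 i hi j hj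
  have hN2 : ∫ x, N x ^ 2 ∂μ ≤ s + (1 + κ) * s ^ 2 := by
    simp_rw [hsq]
    rw [integral_finsetSum F fun i hi => integrable_finsetSum F fun j hj => hint2 i hi j hj]
    have h1 : ∀ i ∈ F, ∫ x, ∑ j ∈ F, (E i ∩ E j).indicator (fun _ => (1 : ℝ)) x ∂μ ≤
        μ.real (E i) + (1 + κ) * (μ.real (E i) * s) := by
      intro i hi
      rw [integral_finsetSum F (fun j hj => hint2 i hi j hj), ← Finset.add_sum_erase F _ hi]
      apply add_le_add
      · rw [inter_self, integral_indicator_const _ (hE i hi)]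
        simp
      · calc ∑ j ∈ F.erase i, ∫ x, (E i ∩ E j).indicator (fun _ => (1 : ℝ)) x ∂μ
            ≤ ∑ j ∈ F.erase i, (1 + κ) * (μ.real (E i) * μ.real (E j)) := by
              refine Finset.sum_le_sum fun j hj => ?_
              have hj' := Finset.mem_of_mem_erase hj
              rw [integral_indicator_const _ ((hE i hi).inter (hE j hj'))]
              simp only [smul_eq_mul, mul_one]
              exact hpair i hi j hj' (Finset.ne_of_mem_erase hj).symm
          _ ≤ ∑ j ∈ F, (1 + κ) * (μ.real (E i) * μ.real (E j)) := by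
              refine Finset.sum_le_sum_of_subset_of_nonneg (Finset.erase_subset _ _) ?_
              intro j _ _
              positivity
          _ = (1 + κ) * (μ.real (E i) * s) := by
              rw [hs, ← Finset.mul_sum, ← Finset.mul_sum]
    calc ∑ i ∈ F, ∫ x, ∑ j ∈ F, (E i ∩ E j).indicator (fun _ => (1 : ℝ)) x ∂μ
        ≤ ∑ i ∈ F, (μ.real (E i) + (1 + κ) * (μ.real (E i) * s)) := Finset.sum_le_sum h1
      _ = s + (1 + κ) * s ^ 2 := by
          rw [Finset.sum_add_distrib, ← Finset.mul_sum, ← Finset.sum_mul, ← hs]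
          ring
  set Z := ⋂ i ∈ F, (E i)ᶜ with hZ
  have hZm : MeasurableSet Z := Finset.measurableSet_biInter F fun i hi => (hE i hi).compl
  have hvar : ∫ x, (N x - s) ^ 2 ∂μ ≤ s + κ * s ^ 2 := by
    have h1 : ∀ x, (N x - s) ^ 2 = N x ^ 2 - 2 * s * N x + s ^ 2 := fun x => by ring
    simp_rw [h1]
    have e1 : ∫ x, (N x ^ 2 - 2 * s * N x + s ^ 2) ∂μ =
        ∫ x, (N x ^ 2 - 2 * s * N x) ∂μ + ∫ _x, s ^ 2 ∂μ :=
      integral_add (hN2i.sub (hNi.const_mul _)) (integrable_const _)
    have e2 : ∫ x, (N x ^ 2 - 2 * s * N x) ∂μ = ∫ x, N x ^ 2 ∂μ - ∫ x, 2 * s * N x ∂μ :=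
      integral_sub hN2i (hNi.const_mul _)
    rw [e1, e2, integral_const_mul, hN1]
    have : ∫ _x : Ω, s ^ 2 ∂μ = s ^ 2 := by simp
    rw [this]
    nlinarith [hN2]
  have hlow : s ^ 2 * μ.real Z ≤ ∫ x, (N x - s) ^ 2 ∂μ := by
    have h1 : ∫ x, Z.indicator (fun _ => s ^ 2) x ∂μ = s ^ 2 * μ.real Z := by
      rw [integral_indicator_const _ hZm, smul_eq_mul, mul_comm]
    rw [← h1]
    refine integral_mono ((integrable_const _).indicator hZm) ?_ fun x => ?_
    · have h1 : (fun x => (N x - s) ^ 2) = fun x => N x ^ 2 - 2 * s * N x + s ^ 2 := by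
        ext x; ring
      rw [h1]
      exact (hN2i.sub (hNi.const_mul _)).add (integrable_const _)
    · by_cases hx : x ∈ Z
      · rw [indicator_of_mem hx]
        have : N x = 0 := by
          rw [hN]
          refine Finset.sum_eq_zero fun i hi => ?_
          rw [indicator_of_notMem]
          rw [hZ, mem_iInter₂] at hx
          exact hx i hi
        rw [this]
        simp
      · rw [indicator_of_notMem hx]
        positivity
  have h3 : s ^ 2 * μ.real Z ≤ s + κ * s ^ 2 := hlow.trans hvar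
  have h4 : μ.real Z * s ^ 2 ≤ (1 / s + κ) * s ^ 2 := by
    have : (1 / s + κ) * s ^ 2 = s + κ * s ^ 2 := by
      field_simp
    rw [this]
    linarith
  exact le_of_mul_le_mul_right h4 (by positivity)

end Pool.Agent.H.MP_a6405b_nt
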