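import Pool.Agent.H.MP_a6405b_nt.Arith

/-!
MP_a6405b_nt (helper50): lower bound for the sum of `1 / (‖q ξ₁‖ ‖q ξ₂‖)` over the primitive `q`.
-/

open Finset

set_option autoImplicit false

namespace Pool.Agent.H.MP_a6405b_nt

/-- The weight `1 / (‖q ξ₁‖ ‖q ξ₂‖)`. -/
noncomputable def wt (ξ₁ ξ₂ : ℝ) (q : ℕ) : ℝ := 1 / (dn (q * ξ₁) * dn (q * ξ₂))

/-- The `q ≤ 2^n` close to `0` with small product. -/
noncomputable def GG (ξ₁ ξ₂ : ℝ) (n k : ℕ) : Finset ℕ :=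
  (Finset.Icc 1 (2 ^ n)).filter (fun q : ℕ => dn (q * ξ₁) ≤ (1 / 2 : ℝ) ^ (4 * k) ∧
    dn (q * ξ₂) ≤ (1 / 2 : ℝ) ^ (4 * k) ∧ 2 ^ n * (dn (q * ξ₁) * dn (q * ξ₂)) ≤ 2 ^ k)

/-- The primitive elements of `GG`. -/
noncomputable def FF (ξ₁ ξ₂ : ℝ) (n k : ℕ) : Finset ℕ :=
  (GG ξ₁ ξ₂ n k).filter (fun q : ℕ => gc ξ₁ ξ₂ q = 1)

theorem sum_G {ξ₁ ξ₂ : ℝ} {n k : ℕ}
    (hpos : ∀ q ∈ Finset.Icc 1 (2 ^ n), 0 < dn ((q : ℕ) * ξ₁) * dn ((q : ℕ) * ξ₂)) :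
    ((Ix n k).card : ℝ) * 2 ^ n / 4 ≤ ∑ q ∈ GG ξ₁ ξ₂ n k, wt ξ₁ ξ₂ q := by
  classical
  have hbox : ∀ p ∈ Ix n k, (2 : ℝ) ^ n ≤ ∑ q ∈ GG ξ₁ ξ₂ n k,
      (if dn (q * ξ₁) ≤ (1 / 2 : ℝ) ^ p.1 ∧ dn (q * ξ₂) ≤ (1 / 2 : ℝ) ^ p.2 then
        (2 : ℝ) ^ p.1 * 2 ^ p.2 else 0) := by
    intro p hp
    rw [Ix, Finset.mem_filter] at hp
    obtain ⟨-, hp1, hp2, hp3, hp4⟩ := hp
    have h1 := box_count ξ₁ ξ₂ n p.1 p.2 hp4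
    have h2 : (Finset.Icc 1 (2 ^ n)).filter
        (fun q : ℕ => dn (q * ξ₁) ≤ (1 / 2 : ℝ) ^ p.1 ∧ dn (q * ξ₂) ≤ (1 / 2 : ℝ) ^ p.2) ⊆
        (GG ξ₁ ξ₂ n k).filter
        (fun q : ℕ => dn (q * ξ₁) ≤ (1 / 2 : ℝ) ^ p.1 ∧ dn (q * ξ₂) ≤ (1 / 2 : ℝ) ^ p.2) := by
      intro q hq
      rw [Finset.mem_filter] at hq
      rw [Finset.mem_filter, GG, Finset.mem_filter]
      refine ⟨⟨hq.1, ?_, ?_, ?_⟩, hq.2⟩
      · exact hq.2.1.trans (pow_le_pow_of_le_one (by norm_num) (by norm_num) hp1)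
      · exact hq.2.2.trans (pow_le_pow_of_le_one (by norm_num) (by norm_num) hp2)
      · have h3 : dn (q * ξ₁) * dn (q * ξ₂) ≤ (1 / 2 : ℝ) ^ (p.1 + p.2) := by
          rw [pow_add]
          exact mul_le_mul hq.2.1 hq.2.2 (dn_nonneg _) (by positivity)
        have h4 : (2 : ℝ) ^ n ≤ 2 ^ (p.1 + p.2 + k) := pow_le_pow_right₀ (by norm_num) hp3
        have h5 : (2 : ℝ) ^ (p.1 + p.2) * (1 / 2) ^ (p.1 + p.2) = 1 := by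
          rw [← mul_pow]; norm_num
        calc (2 : ℝ) ^ n * (dn (q * ξ₁) * dn (q * ξ₂))
            ≤ 2 ^ (p.1 + p.2 + k) * (1 / 2 : ℝ) ^ (p.1 + p.2) :=
              mul_le_mul h4 h3 (mul_nonneg (dn_nonneg _) (dn_nonneg _)) (by positivity)
          _ = 2 ^ k * (2 ^ (p.1 + p.2) * (1 / 2) ^ (p.1 + p.2)) := by rw [pow_add _ (p.1 + p.2) k]; ring
          _ = 2 ^ k := by rw [h5, mul_one]
    have h3 := h1.trans (Finset.card_le_card h2)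
    rw [← Finset.sum_filter, Finset.sum_const, nsmul_eq_mul, ← pow_add]
    have h4 : ((2 ^ (n - (p.1 + p.2)) : ℕ) : ℝ) ≤ _ := Nat.cast_le.2 h3
    calc (2 : ℝ) ^ n = ((2 ^ (n - (p.1 + p.2)) : ℕ) : ℝ) * 2 ^ (p.1 + p.2) := by
          push_cast
          rw [← pow_add, Nat.sub_add_cancel hp4]
      _ ≤ _ := mul_le_mul_of_nonneg_right h4 (by positivity)
  have hswap : ((Ix n k).card : ℝ) * 2 ^ n ≤ ∑ q ∈ GG ξ₁ ξ₂ n k, ∑ p ∈ Ix n k,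
      (if dn (q * ξ₁) ≤ (1 / 2 : ℝ) ^ p.1 ∧ dn (q * ξ₂) ≤ (1 / 2 : ℝ) ^ p.2 then
        (2 : ℝ) ^ p.1 * 2 ^ p.2 else 0) := by
    rw [Finset.sum_comm]
    calc ((Ix n k).card : ℝ) * 2 ^ n = ∑ _p ∈ Ix n k, (2 : ℝ) ^ n := by
          rw [Finset.sum_const, nsmul_eq_mul]
      _ ≤ _ := Finset.sum_le_sum hbox
  have hq : ∀ q ∈ GG ξ₁ ξ₂ n k, ∑ p ∈ Ix n k,
      (if dn (q * ξ₁) ≤ (1 / 2 : ℝ) ^ p.1 ∧ dn (q * ξ₂) ≤ (1 / 2 : ℝ) ^ p.2 then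
        (2 : ℝ) ^ p.1 * 2 ^ p.2 else 0) ≤ 4 * wt ξ₁ ξ₂ q := by
    intro q hq
    rw [GG, Finset.mem_filter] at hq
    have hp := hpos q hq.1
    have hd1 : 0 < dn (q * ξ₁) := by
      rcases lt_or_eq_of_le (dn_nonneg ((q : ℝ) * ξ₁)) with h | h
      · exact h
      · rw [← h, zero_mul] at hp; exact absurd hp (lt_irrefl _)
    have hd2 : 0 < dn (q * ξ₂) := by
      rcases lt_or_eq_of_le (dn_nonneg ((q : ℝ) * ξ₂)) with h | h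
      · exact h
      · rw [← h, mul_zero] at hp; exact absurd hp (lt_irrefl _)
    calc ∑ p ∈ Ix n k, (if dn (q * ξ₁) ≤ (1 / 2 : ℝ) ^ p.1 ∧ dn (q * ξ₂) ≤ (1 / 2 : ℝ) ^ p.2 then
        (2 : ℝ) ^ p.1 * 2 ^ p.2 else 0)
        ≤ ∑ p ∈ Finset.range (n + 1) ×ˢ Finset.range (n + 1),
          (if dn (q * ξ₁) ≤ (1 / 2 : ℝ) ^ p.1 ∧ dn (q * ξ₂) ≤ (1 / 2 : ℝ) ^ p.2 then
          (2 : ℝ) ^ p.1 * 2 ^ p.2 else 0) := by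
          refine Finset.sum_le_sum_of_subset_of_nonneg (Finset.filter_subset _ _) ?_
          intro p _ _
          positivity
      _ = (∑ i ∈ (Finset.range (n + 1)).filter (fun i => dn (q * ξ₁) ≤ (1 / 2 : ℝ) ^ i), (2 : ℝ) ^ i) *
          (∑ i ∈ (Finset.range (n + 1)).filter (fun i => dn (q * ξ₂) ≤ (1 / 2 : ℝ) ^ i), (2 : ℝ) ^ i) := by
          rw [Finset.sum_product, Finset.sum_filter, Finset.sum_filter, Finset.sum_mul_sum]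
          refine Finset.sum_congr rfl fun i _ => Finset.sum_congr rfl fun j _ => ?_
          by_cases h1 : dn (q * ξ₁) ≤ (1 / 2 : ℝ) ^ i <;>
            by_cases h2 : dn (q * ξ₂) ≤ (1 / 2 : ℝ) ^ j <;> simp only [h1, h2, if_true, if_false,
              and_true, and_false, zero_mul, mul_zero]
      _ ≤ (2 / dn (q * ξ₁)) * (2 / dn (q * ξ₂)) := by
          refine mul_le_mul (sum_pow_le _ _ hd1) (sum_pow_le _ _ hd2) ?_ (by positivity)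
          exact Finset.sum_nonneg fun i _ => by positivity
      _ = 4 * wt ξ₁ ξ₂ q := by
          rw [wt]
          field_simp
          norm_num
  have h5 := hswap.trans (Finset.sum_le_sum hq)
  rw [← Finset.mul_sum] at h5
  linarith

theorem sum_inv_sq_le (N : ℕ) : ∑ k ∈ Finset.Icc 1 N, (1 : ℝ) / (k : ℝ) ^ 2 ≤ 2 := by
  have h : ∀ N : ℕ, ∑ k ∈ Finset.Icc 1 (N + 1), (1 : ℝ) / (k : ℝ) ^ 2 ≤ 2 - 1 / ((N : ℝ) + 1) := by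
    intro N
    induction N with
    | zero => norm_num
    | succ N ih =>
      rw [Finset.sum_Icc_succ_top (by omega)]
      have h1 : (0 : ℝ) < (N : ℝ) + 1 := by positivity
      have h2 : (1 : ℝ) / ((N + 1 + 1 : ℕ) : ℝ) ^ 2 ≤ 1 / ((N : ℝ) + 1) - 1 / ((N : ℝ) + 1 + 1) := by
        push_cast
        have e : 1 / ((N : ℝ) + 1) - 1 / ((N : ℝ) + 1 + 1) = 1 / (((N : ℝ) + 1) * ((N : ℝ) + 1 + 1)) := by
          field_simp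
          ring
        rw [e]
        apply one_div_le_one_div_of_le (by positivity)
        nlinarith
      push_cast at h2 ih ⊢
      linarith
  rcases Nat.eq_zero_or_pos N with h0 | h0
  · subst h0
    norm_num
  · obtain ⟨M, rfl⟩ : ∃ M, N = M + 1 := ⟨N - 1, by omega⟩
    have h1 : (0 : ℝ) < 1 / ((M : ℝ) + 1) := by positivity
    linarith [h M]

/-- Dividing `q` by `gc q`. -/
theorem gc_div {ξ₁ ξ₂ : ℝ} {q : ℕ} (hq : 1 ≤ q) (h1 : dn (q * ξ₁) < 1 / 2)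
    (h2 : dn (q * ξ₂) < 1 / 2) :
    1 ≤ gc ξ₁ ξ₂ q ∧ gc ξ₁ ξ₂ q ∣ q ∧ 1 ≤ q / gc ξ₁ ξ₂ q ∧
    dn (((q / gc ξ₁ ξ₂ q : ℕ) : ℝ) * ξ₁) = dn (q * ξ₁) / gc ξ₁ ξ₂ q ∧
    dn (((q / gc ξ₁ ξ₂ q : ℕ) : ℝ) * ξ₂) = dn (q * ξ₂) / gc ξ₁ ξ₂ q ∧
    gc ξ₁ ξ₂ (q / gc ξ₁ ξ₂ q) = 1 := by
  set d := gc ξ₁ ξ₂ q with hd
  have hd1 : 1 ≤ d := Nat.gcd_pos_of_pos_left _ (by omega)
  have hdq : d ∣ q := Nat.gcd_dvd_left _ _
  have hdp : d ∣ Nat.gcd (round ((q : ℝ) * ξ₁)).natAbs (round ((q : ℝ) * ξ₂)).natAbs :=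
    Nat.gcd_dvd_right _ _
  have hd0 : (0 : ℝ) < d := by exact_mod_cast hd1
  obtain ⟨u, hu⟩ := hdq
  have hud : q / d = u := by
    rw [hu]; exact Nat.mul_div_cancel_left u (by omega)
  have hu1 : 1 ≤ u := by
    rcases Nat.eq_zero_or_pos u with h | h
    · rw [h] at hu; omega
    · exact h
  have key : ∀ ξ : ℝ, dn (q * ξ) < 1 / 2 → d ∣ (round ((q : ℝ) * ξ)).natAbs →
      (d : ℤ) * round ((u : ℝ) * ξ) = round ((q : ℝ) * ξ) ∧ dn (u * ξ) = dn (q * ξ) / d := by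
    intro ξ hξ hdv
    obtain ⟨r, hr⟩ := Int.natCast_dvd.2 hdv
    have hqu : (q : ℝ) = d * u := by exact_mod_cast hu
    have hr' : ((round ((q : ℝ) * ξ) : ℤ) : ℝ) = d * r := by exact_mod_cast hr
    have e1 : (u : ℝ) * ξ - r = ((q : ℝ) * ξ - round ((q : ℝ) * ξ)) / d := by
      rw [hr', hqu]
      field_simp
    have e2 : |(u : ℝ) * ξ - r| = dn (q * ξ) / d := by
      rw [e1, abs_div, abs_of_pos hd0]
      rfl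
    have e3 : round ((u : ℝ) * ξ) = r := by
      apply round_eq_of_lt
      rw [e2]
      refine lt_of_le_of_lt ?_ hξ
      exact div_le_self (dn_nonneg _) (by exact_mod_cast hd1)
    refine ⟨by rw [e3, hr], ?_⟩
    rw [dn, e3, e2]
  obtain ⟨k1, k2⟩ := key ξ₁ h1 (hdp.trans (Nat.gcd_dvd_left _ _))
  obtain ⟨k3, k4⟩ := key ξ₂ h2 (hdp.trans (Nat.gcd_dvd_right _ _))
  rw [hud]
  refine ⟨hd1, ⟨u, hu⟩, hu1, k2, k4, ?_⟩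
  have h3 : d = d * gc ξ₁ ξ₂ u := by
    conv_lhs => rw [hd, gc, ← k1, ← k3, Int.natAbs_mul, Int.natAbs_mul, Int.natAbs_natCast, hu,
      Nat.gcd_mul_left, Nat.gcd_mul_left]
    rfl
  have h4 : d * 1 = d * gc ξ₁ ξ₂ u := by rw [mul_one]; exact h3
  exact (Nat.eq_of_mul_eq_mul_left (by omega) h4).symm

theorem sum_F {ξ₁ ξ₂ : ℝ} {n k : ℕ} (hk : 1 ≤ k) :
    ∑ q ∈ GG ξ₁ ξ₂ n k, wt ξ₁ ξ₂ q ≤ 2 * ∑ q ∈ FF ξ₁ ξ₂ n k, wt ξ₁ ξ₂ q := by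
  classical
  have hlt : (1 / 2 : ℝ) ^ (4 * k) < 1 / 2 := by
    calc (1 / 2 : ℝ) ^ (4 * k) < (1 / 2) ^ 1 :=
          pow_lt_pow_right_of_lt_one₀ (by norm_num) (by norm_num) (by omega)
      _ = 1 / 2 := by norm_num
  have hdata : ∀ q ∈ GG ξ₁ ξ₂ n k, 1 ≤ gc ξ₁ ξ₂ q ∧ gc ξ₁ ξ₂ q ∣ q ∧ 1 ≤ q / gc ξ₁ ξ₂ q ∧
    dn (((q / gc ξ₁ ξ₂ q : ℕ) : ℝ) * ξ₁) = dn (q * ξ₁) / gc ξ₁ ξ₂ q ∧
    dn (((q / gc ξ₁ ξ₂ q : ℕ) : ℝ) * ξ₂) = dn (q * ξ₂) / gc ξ₁ ξ₂ q ∧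
    gc ξ₁ ξ₂ (q / gc ξ₁ ξ₂ q) = 1 := by
    intro q hq
    rw [GG, Finset.mem_filter, Finset.mem_Icc] at hq
    exact gc_div hq.1.1 (lt_of_le_of_lt hq.2.1 hlt) (lt_of_le_of_lt hq.2.2.1 hlt)
  set Φ : ℕ → ℕ × ℕ := fun q => (q / gc ξ₁ ξ₂ q, gc ξ₁ ξ₂ q) with hΦ
  have hmap : ∀ q ∈ GG ξ₁ ξ₂ n k, Φ q ∈ FF ξ₁ ξ₂ n k ×ˢ Finset.Icc 1 (2 ^ n) := by
    intro q hq
    obtain ⟨a1, a2, a3, a4, a5, a6⟩ := hdata q hq
    rw [GG, Finset.mem_filter, Finset.mem_Icc] at hq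
    obtain ⟨⟨b1, b2⟩, b3, b4, b5⟩ := hq
    have hg1 : (1 : ℝ) ≤ gc ξ₁ ξ₂ q := by exact_mod_cast a1
    have c1 : dn (((q / gc ξ₁ ξ₂ q : ℕ) : ℝ) * ξ₁) ≤ dn (q * ξ₁) := by
      rw [a4]; exact div_le_self (dn_nonneg _) hg1
    have c2 : dn (((q / gc ξ₁ ξ₂ q : ℕ) : ℝ) * ξ₂) ≤ dn (q * ξ₂) := by
      rw [a5]; exact div_le_self (dn_nonneg _) hg1
    rw [Finset.mem_product, FF, Finset.mem_filter, GG, Finset.mem_filter, Finset.mem_Icc,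
      Finset.mem_Icc]
    refine ⟨⟨⟨⟨a3, (Nat.div_le_self _ _).trans b2⟩, c1.trans b3, c2.trans b4, ?_⟩, a6⟩, a1, ?_⟩
    · refine le_trans ?_ b5
      exact mul_le_mul_of_nonneg_left (mul_le_mul c1 c2 (dn_nonneg _) (dn_nonneg _)) (by positivity)
    · exact (Nat.le_of_dvd (by omega) a2).trans b2
  have hinj : ∀ q ∈ GG ξ₁ ξ₂ n k, ∀ q' ∈ GG ξ₁ ξ₂ n k, Φ q = Φ q' → q = q' := by
    intro q hq q' hq' h
    obtain ⟨-, a2, -⟩ := hdata q hq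
    obtain ⟨-, b2, -⟩ := hdata q' hq'
    simp only [hΦ, Prod.mk.injEq] at h
    rw [← Nat.div_mul_cancel a2, ← Nat.div_mul_cancel b2, h.1, h.2]
  have hw : ∀ q ∈ GG ξ₁ ξ₂ n k, wt ξ₁ ξ₂ q =
      wt ξ₁ ξ₂ (Φ q).1 * (1 / ((Φ q).2 : ℝ) ^ 2) := by
    intro q hq
    obtain ⟨a1, a2, a3, a4, a5, a6⟩ := hdata q hq
    have hg0 : (gc ξ₁ ξ₂ q : ℝ) ≠ 0 := by
      have : (1 : ℝ) ≤ gc ξ₁ ξ₂ q := by exact_mod_cast a1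
      linarith
    simp only [hΦ, wt]
    rw [a4, a5, one_div_mul_one_div]
    congr 1
    field_simp
  calc ∑ q ∈ GG ξ₁ ξ₂ n k, wt ξ₁ ξ₂ q
      = ∑ q ∈ GG ξ₁ ξ₂ n k, wt ξ₁ ξ₂ (Φ q).1 * (1 / ((Φ q).2 : ℝ) ^ 2) := Finset.sum_congr rfl hw
    _ = ∑ p ∈ (GG ξ₁ ξ₂ n k).image Φ, wt ξ₁ ξ₂ p.1 * (1 / (p.2 : ℝ) ^ 2) := by
        rw [Finset.sum_image]
        exact fun a ha b hb h => hinj a ha b hb h
    _ ≤ ∑ p ∈ FF ξ₁ ξ₂ n k ×ˢ Finset.Icc (1 : ℕ) (2 ^ n), wt ξ₁ ξ₂ p.1 * (1 / (p.2 : ℝ) ^ 2) := by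
        refine Finset.sum_le_sum_of_subset_of_nonneg ?_ ?_
        · intro p hp
          rw [Finset.mem_image] at hp
          obtain ⟨q, hq, rfl⟩ := hp
          exact hmap q hq
        · intro p _ _
          have : 0 ≤ wt ξ₁ ξ₂ p.1 := by
            rw [wt]
            exact div_nonneg (by norm_num) (mul_nonneg (dn_nonneg _) (dn_nonneg _))
          positivity
    _ = (∑ q ∈ FF ξ₁ ξ₂ n k, wt ξ₁ ξ₂ q) * ∑ k ∈ Finset.Icc (1 : ℕ) (2 ^ n), (1 : ℝ) / (k : ℝ) ^ 2 := by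
        rw [Finset.sum_product, Finset.sum_mul_sum]
    _ ≤ (∑ q ∈ FF ξ₁ ξ₂ n k, wt ξ₁ ξ₂ q) * 2 := by
        refine mul_le_mul_of_nonneg_left (sum_inv_sq_le _) ?_
        refine Finset.sum_nonneg fun q _ => ?_
        rw [wt]
        exact div_nonneg (by norm_num) (mul_nonneg (dn_nonneg _) (dn_nonneg _))
    _ = 2 * ∑ q ∈ FF ξ₁ ξ₂ n k, wt ξ₁ ξ₂ q := by ring

end Pool.Agent.H.MP_a6405b_nt
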