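import Pool.Agent.H.MP_a6405b_nt.Circle
import Pool.Agent.H.MP_a6405b_nt.Sums

/-!
MP_a6405b_nt (helper50): measure of the failure set at one scale, Borel-Cantelli, all scales.
-/

open MeasureTheory Set Filter
open scoped ENNReal

set_option autoImplicit false

namespace Pool.Agent.H.MP_a6405b_nt

/-- the points for which no `q ≤ 2^n` is good -/
def Fail (ξ₁ ξ₂ : ℝ) (g : UnitAddCircle) (n : ℕ) (δ : ℝ) : Set UnitAddCircle :=
  {x | ∀ q ∈ Finset.Icc 1 (2 ^ n),
    δ < 2 ^ n * (dn ((q : ℕ) * ξ₁) * dn ((q : ℕ) * ξ₂) * ‖q • x - g‖)}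

theorem norm_circle_le (x : UnitAddCircle) : ‖x‖ ≤ 1 / 2 := by
  have := AddCircle.norm_le_half_period (p := (1 : ℝ)) (x := x) one_ne_zero
  simpa using this

theorem fail_le (ξ₁ ξ₂ : ℝ) (g : UnitAddCircle) {n k : ℕ} (hk : 1 ≤ k) (hn : 32 * k ≤ n) {δ : ℝ}
    (hδ : 0 < δ) :
    (volume : Measure UnitAddCircle).real (Fail ξ₁ ξ₂ g n δ) ≤ 5 / (δ * (k : ℝ) ^ 2) := by
  classical
  have hk0 : (0 : ℝ) < k := by exact_mod_cast hk
  by_cases hnt : ∀ q ∈ Finset.Icc 1 (2 ^ n), 2 * δ < 2 ^ n * (dn ((q : ℕ) * ξ₁) * dn ((q : ℕ) * ξ₂))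
  · have hpos : ∀ q ∈ Finset.Icc 1 (2 ^ n), 0 < dn ((q : ℕ) * ξ₁) * dn ((q : ℕ) * ξ₂) := by
      intro q hq
      have h1 := hnt q hq
      have h2 : (0 : ℝ) < 2 ^ n := by positivity
      by_contra hc
      rw [not_lt] at hc
      nlinarith
    set a : ℕ → ℝ := fun q => δ / 2 ^ n * wt ξ₁ ξ₂ q with ha
    set F := FF ξ₁ ξ₂ n k with hF
    set E : ℕ → Set UnitAddCircle := fun q => Ev g q (a q) with hE
    set t : ℝ := δ / 2 ^ k with ht
    have ht0 : 0 < t := by positivity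
    set ρ : ℝ := (1 / 2) ^ (4 * k) with hρ
    have hρ0 : 0 < ρ := by positivity
    have hmem : ∀ q ∈ F, (1 ≤ q ∧ q ≤ 2 ^ n) ∧ dn (q * ξ₁) ≤ ρ ∧ dn (q * ξ₂) ≤ ρ ∧
        2 ^ n * (dn (q * ξ₁) * dn (q * ξ₂)) ≤ 2 ^ k ∧ gc ξ₁ ξ₂ q = 1 := by
      intro q hq
      rw [hF, FF, Finset.mem_filter, GG, Finset.mem_filter, Finset.mem_Icc] at hq
      exact ⟨hq.1.1, hq.1.2.1, hq.1.2.2.1, hq.1.2.2.2, hq.2⟩
    have hat : ∀ q ∈ F, t ≤ a q ∧ a q < 1 / 2 := by
      intro q hq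
      obtain ⟨h1, h2, h3, h4, h5⟩ := hmem q hq
      have h6 := hnt q (Finset.mem_Icc.2 h1)
      have h7 := hpos q (Finset.mem_Icc.2 h1)
      have h8 : (0 : ℝ) < 2 ^ n := by positivity
      have h9 : a q = δ / (2 ^ n * (dn (q * ξ₁) * dn (q * ξ₂))) := by
        rw [ha]
        simp only [wt]
        field_simp
      rw [h9]
      constructor
      · rw [ht]
        exact div_le_div_of_nonneg_left hδ.le (by positivity) h4
      · rw [div_lt_iff₀ (by positivity)]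
        linarith
    have hmu : ∀ q ∈ F, (volume : Measure UnitAddCircle).real (E q) = 2 * a q := by
      intro q hq
      rw [measureReal_def, hE]
      simp only
      rw [volume_Ev g (hmem q hq).1.1 (hat q hq).2.le, ENNReal.toReal_ofReal]
      have := (hat q hq).1
      linarith
    set κ : ℝ := ρ / t with hκ
    have hκ0 : 0 ≤ κ := by positivity
    have hpair1 : ∀ q ∈ F, ∀ q' ∈ F, q < q' →
        (volume : Measure UnitAddCircle).real (E q ∩ E q') ≤ (1 + κ) * (2 * a q * (2 * a q')) := by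
      intro q hq q' hq' hlt
      obtain ⟨h1, h2, h3, h4, h5⟩ := hmem q hq
      obtain ⟨h1', h2', h3', h4', h5'⟩ := hmem q' hq'
      have a1 := hat q hq
      have a2 := hat q' hq'
      have v := volume_pair g h1.1 h1'.1 (ht0.le.trans a1.1) a2.2.le
      have pp := prim_pair h1.1 hlt h5' h2 h3 h2' h3'
      set m' := q' / Nat.gcd q q' with hm'
      have hm0 : (0 : ℝ) < (m' : ℝ) := by
        rcases lt_or_eq_of_le (Nat.cast_nonneg (α := ℝ) m') with h | h
        · exact h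
        · rw [← h] at pp
          norm_num at pp
      have hinv : 1 / (m' : ℝ) ≤ 2 * ρ := by
        rw [div_le_iff₀ hm0]
        exact pp
      have hr : (volume : Measure UnitAddCircle).real (E q ∩ E q') ≤
          2 * a q' * (2 * a q + 1 / (m' : ℝ)) := by
        rw [measureReal_def]
        refine ENNReal.toReal_le_of_le_ofReal ?_ v
        have : 0 ≤ a q := ht0.le.trans a1.1
        have : 0 ≤ a q' := ht0.le.trans a2.1
        positivity
      refine hr.trans ?_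
      have a3 : 0 ≤ a q' := ht0.le.trans a2.1
      have a4 : ρ ≤ κ * a q := by
        rw [hκ, div_mul_eq_mul_div, le_div_iff₀ ht0]
        exact mul_le_mul_of_nonneg_left a1.1 hρ0.le
      nlinarith
    have hpair : ∀ q ∈ F, ∀ q' ∈ F, q ≠ q' →
        (volume : Measure UnitAddCircle).real (E q ∩ E q') ≤
          (1 + κ) * ((volume : Measure UnitAddCircle).real (E q) *
            (volume : Measure UnitAddCircle).real (E q')) := by
      intro q hq q' hq' hne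
      rw [hmu q hq, hmu q' hq']
      rcases lt_or_gt_of_ne hne with h | h
      · exact hpair1 q hq q' hq' h
      · rw [inter_comm, mul_comm (2 * a q)]
        exact hpair1 q' hq' q hq h
    have hS : δ * (k : ℝ) ^ 2 / 4 ≤ ∑ q ∈ F, (volume : Measure UnitAddCircle).real (E q) := by
      rw [Finset.sum_congr rfl hmu, ← Finset.mul_sum]
      have s1 := sum_G (ξ₁ := ξ₁) (ξ₂ := ξ₂) (n := n) (k := k) hpos
      have s2 := sum_F (ξ₁ := ξ₁) (ξ₂ := ξ₂) (n := n) (k := k) hk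
      have s3 : ((k * k : ℕ) : ℝ) ≤ ((Ix n k).card : ℝ) := Nat.cast_le.2 (card_Ix hn)
      have s4 : ∑ q ∈ F, a q = δ / 2 ^ n * ∑ q ∈ F, wt ξ₁ ξ₂ q := by
        rw [ha, Finset.mul_sum]
      rw [s4]
      have h8 : (0 : ℝ) < 2 ^ n := by positivity
      have s5 : ((k : ℝ) ^ 2) * 2 ^ n / 8 ≤ ∑ q ∈ F, wt ξ₁ ξ₂ q := by
        push_cast at s3
        have : (k : ℝ) ^ 2 * 2 ^ n ≤ ((Ix n k).card : ℝ) * 2 ^ n := by
          apply mul_le_mul_of_nonneg_right _ h8.le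
          rw [sq]; exact s3
        linarith
      calc δ * (k : ℝ) ^ 2 / 4 = 2 * (δ / 2 ^ n * (((k : ℝ) ^ 2) * 2 ^ n / 8)) := by
            field_simp
            norm_num
        _ ≤ 2 * (δ / 2 ^ n * ∑ q ∈ F, wt ξ₁ ξ₂ q) := by
            apply mul_le_mul_of_nonneg_left _ (by norm_num)
            exact mul_le_mul_of_nonneg_left s5 (by positivity)
    have hS0 : 0 < ∑ q ∈ F, (volume : Measure UnitAddCircle).real (E q) :=
      lt_of_lt_of_le (by positivity) hS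
    have : IsProbabilityMeasure (volume : Measure UnitAddCircle) := ⟨UnitAddCircle.measure_univ⟩
    have hsm := second_moment (volume : Measure UnitAddCircle) F E
      (fun q _ => measurableSet_Ev g q (a q)) κ hκ0 hpair hS0
    have hsub : Fail ξ₁ ξ₂ g n δ ⊆ ⋂ q ∈ F, (E q)ᶜ := by
      intro x hx
      rw [mem_iInter₂]
      intro q hq
      obtain ⟨h1, h2, h3, h4, h5⟩ := hmem q hq
      have h6 := hx q (Finset.mem_Icc.2 h1)
      have h7 := hpos q (Finset.mem_Icc.2 h1)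
      rw [mem_compl_iff, hE]
      simp only [Ev, mem_ofPred_eq, not_le]
      have h9 : a q = δ / (2 ^ n * (dn (q * ξ₁) * dn (q * ξ₂))) := by
        rw [ha]
        simp only [wt]
        field_simp
      rw [h9, div_lt_iff₀ (by positivity)]
      linarith
    have hfin : (volume : Measure UnitAddCircle).real (Fail ξ₁ ξ₂ g n δ) ≤
        (volume : Measure UnitAddCircle).real (⋂ q ∈ F, (E q)ᶜ) := measureReal_mono hsub
    have hκ1 : κ ≤ 1 / (δ * (k : ℝ) ^ 2) := by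
      rw [hκ, hρ, ht]
      have e1 : (1 / 2 : ℝ) ^ (4 * k) / (δ / 2 ^ k) = (1 / 8) ^ k / δ := by
        rw [pow_mul, div_div_eq_mul_div, ← mul_pow]
        norm_num
      rw [e1, div_le_div_iff₀ hδ (by positivity), one_mul]
      have e2 : (k : ℝ) ^ 2 ≤ 8 ^ k := by
        have : k ^ 2 ≤ 8 ^ k := by
          have h1 : k < 2 ^ k := Nat.lt_two_pow_self
          calc k ^ 2 ≤ (2 ^ k) ^ 2 := Nat.pow_le_pow_left h1.le 2
            _ = 4 ^ k := by rw [← pow_mul, mul_comm, pow_mul]; norm_num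
            _ ≤ 8 ^ k := Nat.pow_le_pow_left (by norm_num) k
        exact_mod_cast this
      have e3 : (1 / 8 : ℝ) ^ k * 8 ^ k = 1 := by
        rw [← mul_pow]; norm_num
      calc (1 / 8 : ℝ) ^ k * (δ * (k : ℝ) ^ 2) = δ * ((1 / 8 : ℝ) ^ k * (k : ℝ) ^ 2) := by ring
        _ ≤ δ * ((1 / 8 : ℝ) ^ k * 8 ^ k) := by gcongr
        _ = δ := by rw [e3, mul_one]
    have hS1 : 1 / ∑ q ∈ F, (volume : Measure UnitAddCircle).real (E q) ≤ 4 / (δ * (k : ℝ) ^ 2) := by
      calc 1 / ∑ q ∈ F, (volume : Measure UnitAddCircle).real (E q) ≤ 1 / (δ * (k : ℝ) ^ 2 / 4) :=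
            one_div_le_one_div_of_le (by positivity) hS
        _ = 4 / (δ * (k : ℝ) ^ 2) := by rw [one_div_div]
    calc (volume : Measure UnitAddCircle).real (Fail ξ₁ ξ₂ g n δ)
        ≤ 4 / (δ * (k : ℝ) ^ 2) + 1 / (δ * (k : ℝ) ^ 2) := by linarith
      _ = 5 / (δ * (k : ℝ) ^ 2) := by ring
  · have hemp : Fail ξ₁ ξ₂ g n δ = ∅ := by
      push Not at hnt
      obtain ⟨q, hq, h1⟩ := hnt
      rw [Set.eq_empty_iff_forall_notMem]
      intro x hx
      have h2 := hx q hq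
      have h3 := norm_circle_le (q • x - g)
      have h4 : 0 ≤ dn ((q : ℕ) * ξ₁) * dn ((q : ℕ) * ξ₂) := mul_nonneg (dn_nonneg _) (dn_nonneg _)
      have h5 : (2 : ℝ) ^ n * (dn ((q : ℕ) * ξ₁) * dn ((q : ℕ) * ξ₂) * ‖q • x - g‖) ≤ 2 * δ * (1 / 2) := by
        rw [← mul_assoc]
        exact mul_le_mul h1 h3 (norm_nonneg _) (by positivity)
      linarith
    rw [hemp]
    simp only [measureReal_empty]
    positivity

theorem ae_circle (ξ₁ ξ₂ : ℝ) (g : UnitAddCircle) (ψ : ℕ → ℝ) (hψ : ∀ n, 0 < ψ n)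
    (hs : Summable fun n : ℕ => 1 / ((n : ℝ) ^ 2 * ψ n)) :
    ∀ᵐ x : UnitAddCircle, ∀ᶠ n : ℕ in atTop, x ∉ Fail ξ₁ ξ₂ g n (ψ n / 2) := by
  apply ae_eventually_notMem
  set c : ℕ → ℝ := fun n => 40960 * (1 / ((n : ℝ) ^ 2 * ψ n)) + (if n < 32 then 1 else 0) with hc
  have hcs : Summable c := by
    apply Summable.add (hs.mul_left _)
    apply summable_of_ne_finset_zero (s := Finset.range 32)
    intro n hn
    rw [Finset.mem_range] at hn
    rw [if_neg hn]
  have hle : ∀ n, (volume : Measure UnitAddCircle) (Fail ξ₁ ξ₂ g n (ψ n / 2)) ≤ ENNReal.ofReal (c n) := by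
    intro n
    rw [← ofReal_measureReal]
    apply ENNReal.ofReal_le_ofReal
    have hψn := hψ n
    by_cases h : n < 32
    · have h1 : (volume : Measure UnitAddCircle).real (Fail ξ₁ ξ₂ g n (ψ n / 2)) ≤ 1 := by
        have := measureReal_mono (μ := (volume : Measure UnitAddCircle))
          (subset_univ (Fail ξ₁ ξ₂ g n (ψ n / 2)))
        refine this.trans (le_of_eq ?_)
        simp [measureReal_def]
      rw [hc]
      simp only [if_pos h]
      have : 0 ≤ 40960 * (1 / ((n : ℝ) ^ 2 * ψ n)) := by positivity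
      linarith
    · rw [not_lt] at h
      set k := n / 32 with hk
      have hk1 : 1 ≤ k := by omega
      have hkn : 32 * k ≤ n := by omega
      have h2 : n ≤ 64 * k := by omega
      have h1 := fail_le ξ₁ ξ₂ g hk1 hkn (δ := ψ n / 2) (by positivity)
      refine h1.trans ?_
      rw [hc]
      simp only [if_neg (not_lt.2 h), add_zero]
      have h3 : (n : ℝ) ≤ 64 * k := by exact_mod_cast h2
      have hk0 : (0 : ℝ) < k := by exact_mod_cast hk1
      have hn0 : (0 : ℝ) < n := by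
        have : 0 < n := by omega
        exact_mod_cast this
      rw [mul_one_div, div_le_div_iff₀ (by positivity) (by positivity)]
      have h4 : (n : ℝ) ^ 2 ≤ 4096 * (k : ℝ) ^ 2 := by nlinarith
      nlinarith [mul_le_mul_of_nonneg_left h4 hψn.le]
  exact ne_top_of_le_ne_top hcs.tsum_ofReal_ne_top (ENNReal.tsum_le_tsum hle)

theorem ae_real {P : UnitAddCircle → Prop} (h : ∀ᵐ x : UnitAddCircle, P x) :
    ∀ᵐ x : ℝ, P (x : UnitAddCircle) := by
  have h1 : ∀ n : ℤ, ∀ᵐ x : ℝ ∂(volume.restrict (Ioc (n : ℝ) (n + 1))), P (x : UnitAddCircle) := by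
    intro n
    have := (UnitAddCircle.measurePreserving_mk (n : ℝ)).quasiMeasurePreserving.ae h
    exact this
  rw [← ae_restrict_iUnion_iff, iUnion_Ioc_intCast, Measure.restrict_univ] at h1
  exact h1

theorem main (ξ₁ ξ₂ γ : ℝ) (ψ : ℕ → ℝ) (hψ : ∀ n, 0 < ψ n)
    (hs : Summable fun n : ℕ => 1 / ((n : ℝ) ^ 2 * ψ n)) :
    ∀ᵐ ξ₃ : ℝ, ∃ Q₀ : ℕ, ∀ Q : ℕ, Q₀ ≤ Q → ∃ q : ℕ, 1 ≤ q ∧ q ≤ Q ∧
      (Q : ℝ) * (dn (q * ξ₁) * dn (q * ξ₂) * dn (q * ξ₃ - γ)) ≤ ψ (Nat.log 2 Q) := by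
  have h := ae_real (ae_circle ξ₁ ξ₂ (γ : UnitAddCircle) ψ hψ hs)
  filter_upwards [h] with ξ₃ h3
  obtain ⟨N, hN⟩ := eventually_atTop.1 h3
  refine ⟨2 ^ N, fun Q hQ => ?_⟩
  have hQ0 : Q ≠ 0 := by
    have : 0 < 2 ^ N := by positivity
    omega
  set n := Nat.log 2 Q with hn
  have hNn : N ≤ n := by
    rw [hn]
    exact Nat.le_log_of_pow_le (by norm_num) hQ
  have h4 := hN n hNn
  rw [Fail, mem_ofPred_eq] at h4
  push Not at h4
  obtain ⟨q, hq, h5⟩ := h4
  rw [Finset.mem_Icc] at hq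
  have h6 : 2 ^ n ≤ Q := Nat.pow_log_le_self 2 hQ0
  have h7 : Q < 2 ^ (n + 1) := Nat.lt_pow_succ_log_self (by norm_num) Q
  refine ⟨q, hq.1, hq.2.trans h6, ?_⟩
  have h8 : ‖q • (ξ₃ : UnitAddCircle) - (γ : UnitAddCircle)‖ = dn (q * ξ₃ - γ) := by
    rw [← AddCircle.coe_nsmul, ← AddCircle.coe_sub, UnitAddCircle.norm_eq, nsmul_eq_mul]
    rfl
  rw [h8] at h5
  have h9 : (Q : ℝ) ≤ 2 * 2 ^ n := by
    have : (Q : ℝ) < 2 ^ (n + 1) := by exact_mod_cast h7
    rw [pow_succ] at this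
    linarith
  have h10 : 0 ≤ dn (q * ξ₁) * dn (q * ξ₂) * dn (q * ξ₃ - γ) :=
    mul_nonneg (mul_nonneg (dn_nonneg _) (dn_nonneg _)) (dn_nonneg _)
  nlinarith [mul_le_mul_of_nonneg_right h9 h10]

end Pool.Agent.H.MP_a6405b_nt
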